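import Pool.Agent.Helper27.BEL.Defs

/-!
# BEL7: the pattern that bounds the smallest minimum degree
-/

set_option autoImplicit false

namespace Pool.Agent.Helper54.BEL

open Pool.Agent.Helper27.BEL

/-- the relation `B` contains a copy of `H` -/
def Cont {n : ℕ} {V : Type} (H : SimpleGraph (Fin n)) (B : V → V → Prop) : Prop :=
  ∃ f : Fin n → V, Function.Injective f ∧ ∀ u v, H.Adj u v → B (f u) (f v)

/-- the blue edges -/
def Bl {r m K : ℕ} (q : Fin K → Finset (Fin r × Fin m)) :
    ((Fin r × Fin m) ⊕ Fin K) → ((Fin r × Fin m) ⊕ Fin K) → Prop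
  | .inl p, .inl p' => p.1 ≠ p'.1
  | .inl p, .inr k => p ∈ q k
  | .inr k, .inl p => p ∈ q k
  | .inr _, .inr _ => False

theorem Bl_symm {r m K : ℕ} (q : Fin K → Finset (Fin r × Fin m)) (x y) (h : Bl q x y) : Bl q y x := by
  rcases x with p | k <;> rcases y with p' | k'
  · exact fun h' => h h'.symm
  · exact h
  · exact h
  · exact h

/-- all edges of the pattern -/
def PP {r m K : ℕ} (q : Fin K → Finset (Fin r × Fin m)) : SimpleGraph ((Fin r × Fin m) ⊕ Fin K) where
  Adj x y := match x, y with
    | .inl p, .inl p' => p ≠ p'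
    | .inl p, .inr k => p ∈ q k
    | .inr k, .inl p => p ∈ q k
    | .inr _, .inr _ => False
  symm := ⟨by
    rintro (p | k) (p' | k') h
    · exact fun h' => h h'.symm
    · exact h
    · exact h
    · exact h⟩
  loopless := ⟨by
    rintro (p | k) h
    · exact h rfl
    · exact h⟩

theorem PP_of_Bl {r m K : ℕ} (q : Fin K → Finset (Fin r × Fin m)) (x y) (h : Bl q x y) :
    (PP q).Adj x y := by
  rcases x with p | k <;> rcases y with p' | k'
  · exact fun h' => h (by rw [h'])
  · exact h
  · exact h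
  · exact h

/-- a bijection which maps a given small set into a given large one -/
theorem exists_map {A B : Type} [Fintype A] [Fintype B] (hc : Fintype.card A = Fintype.card B)
    (S : Finset A) (R : Finset B) (h : S.card ≤ R.card) :
    ∃ g : A → B, Function.Injective g ∧ ∀ s ∈ S, g s ∈ R := by
  classical
  obtain ⟨R', hR', hcR⟩ := Finset.exists_subset_card_eq h
  let e : A ≃ B := Fintype.equivOfCardEq hc
  have hS : (S.map e.toEmbedding).card = R'.card := by rw [Finset.card_map, hcR]
  have hS' : Fintype.card {x // x ∈ S.map e.toEmbedding} = Fintype.card {x // x ∈ R'} := by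
    rw [Fintype.card_coe, Fintype.card_coe, hS]
  let π := (Fintype.equivOfCardEq hS').extendSubtype
  refine ⟨fun a => π (e a), π.injective.comp e.injective, fun s hs => hR' ?_⟩
  exact Equiv.extendSubtype_mem _ _ (Finset.mem_map_of_mem _ hs)

section

variable {n r d : ℕ} (H : SimpleGraph (Fin n))

theorem color_used (C : Fin n → Fin (r + 1)) (hC : ∀ u v, H.Adj u v → C u ≠ C v)
    (hr : ¬ H.Colorable r) (k : Fin (r + 1)) : ∃ v, C v = k := by
  by_contra h
  push Not at h
  apply hr
  have h1 : ∀ v, ∃ j : Fin r, k.succAbove j = C v := fun v => Fin.exists_succAbove_eq (h v)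
  choose c hc using h1
  exact ⟨SimpleGraph.Coloring.mk c (fun {u v} huv he => hC u v huv (by rw [← hc u, ← hc v, he]))⟩

/-- size of class `i` -/
def gc (C : Fin n → Fin (r + 1)) (i : Fin r) : ℕ :=
  (Finset.univ.filter (fun v => C v = i.castSucc)).card

theorem deg_class (C : Fin n → Fin (r + 1)) (hC : ∀ u v, H.Adj u v → C u ≠ C v)
    (hr : ¬ H.Colorable r) (hdeg : ∀ v, d ≤ (H.neighborSet v).ncard) (i : Fin r) :
    d + gc C i ≤ n := by
  classical
  obtain ⟨v, hv⟩ := color_used H C hC hr i.castSucc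
  have h1 : (H.neighborSet v).ncard ≤ (Finset.univ.filter (fun u => ¬ C u = i.castSucc)).card := by
    rw [← Set.ncard_coe_finset]
    apply Set.ncard_le_ncard _ (Finset.finite_toSet _)
    intro u hu
    simp only [Finset.coe_filter, Finset.mem_univ, true_and, Set.mem_ofPred_eq]
    exact fun h => hC v u hu (by rw [hv, h])
  have h2 := Finset.card_filter_add_card_filter_not (s := (Finset.univ : Finset (Fin n)))
    (fun u => C u = i.castSucc)
  rw [Finset.card_univ, Fintype.card_fin] at h2
  have := hdeg v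
  unfold gc
  omega

theorem sum_gc (C : Fin n → Fin (r + 1)) :
    ∑ i, gc C i + (Finset.univ.filter (fun v => C v = Fin.last r)).card = n := by
  have h := Finset.card_eq_sum_card_fiberwise (f := C) (s := (Finset.univ : Finset (Fin n)))
    (t := Finset.univ) (fun _ _ => by simp)
  rw [Finset.card_univ, Fintype.card_fin, Fin.sum_univ_castSucc] at h
  exact h.symm

/-- the types -/
abbrev Ty (d : ℕ) (C : Fin n → Fin (r + 1)) : Type :=
  {t : Finset (Fin r × Fin (n - 1)) // (∀ p ∈ t, p.2.val < d - 1 + gc C p.1) ∧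
    ∀ i, gc C i ≤ (t.filter (fun p => p.1 = i)).card}

/-- if a type is used often enough then the blue graph contains `H` -/
theorem cont_of_fiber (C : Fin n → Fin (r + 1)) (hC : ∀ u v, H.Adj u v → C u ≠ C v)
    {K : ℕ} (q : Fin K → Ty d C) (t : Ty d C)
    (ht : (Finset.univ.filter (fun v => C v = Fin.last r)).card ≤
      (Finset.univ.filter (fun k => q k = t)).card) :
    Cont H (Bl (fun k => (q k).1)) := by
  classical
  have h0 : ∀ c : Fin (r + 1), ∃ F : {v // C v = c} → (Fin r × Fin (n - 1)) ⊕ Fin K,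
      Function.Injective F ∧
      ((∃ i : Fin r, c = i.castSucc ∧ ∀ x, ∃ p, F x = .inl p ∧ p ∈ t.1 ∧ p.1 = i) ∨
        (c = Fin.last r ∧ ∀ x, ∃ k, F x = .inr k ∧ q k = t)) := by
    intro c
    induction c using Fin.lastCases with
    | last =>
      have h2 : Nonempty ({v // C v = Fin.last r} ↪ {k // q k = t}) := by
        apply Function.Embedding.nonempty_of_card_le
        rw [Fintype.card_subtype, Fintype.card_subtype]
        exact ht
      obtain ⟨e⟩ := h2
      refine ⟨fun x => .inr (e x).1, ?_, Or.inr ⟨rfl, fun x => ⟨_, rfl, (e x).2⟩⟩⟩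
      intro x y hxy
      exact e.injective (Subtype.ext (Sum.inr_injective hxy))
    | cast i =>
      have h1 : Nonempty ({v // C v = i.castSucc} ↪ {p // p ∈ t.1 ∧ p.1 = i}) := by
        apply Function.Embedding.nonempty_of_card_le
        rw [Fintype.card_subtype, Fintype.card_subtype]
        refine (t.2.2 i).trans (Finset.card_le_card ?_)
        intro p hp
        simpa using hp
      obtain ⟨e⟩ := h1
      refine ⟨fun x => .inl (e x).1, ?_, Or.inl ⟨i, rfl, fun x => ⟨_, rfl, (e x).2⟩⟩⟩
      intro x y hxy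
      exact e.injective (Subtype.ext (Sum.inl_injective hxy))
  choose F hFi hF using h0
  have hcast : ∀ v c (hv : C v = c), F (C v) ⟨v, rfl⟩ = F c ⟨v, hv⟩ := by
    rintro v _ rfl; rfl
  refine ⟨fun v => F (C v) ⟨v, rfl⟩, ?_, ?_⟩
  · intro u v huv
    simp only at huv
    have hc : C u = C v := by
      rcases hF (C u) with ⟨i, hi, hu⟩ | ⟨hi, hu⟩ <;> rcases hF (C v) with ⟨j, hj, hv⟩ | ⟨hj, hv⟩
      · obtain ⟨p, hp, -, hp1⟩ := hu ⟨u, rfl⟩
        obtain ⟨p', hp', -, hp1'⟩ := hv ⟨v, rfl⟩
        rw [hp, hp'] at huv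
        have := Sum.inl_injective huv
        rw [hi, hj, ← hp1, ← hp1', this]
      · obtain ⟨p, hp, -, hp1⟩ := hu ⟨u, rfl⟩
        obtain ⟨p', hp', -⟩ := hv ⟨v, rfl⟩
        rw [hp, hp'] at huv
        cases huv
      · obtain ⟨p, hp, -⟩ := hu ⟨u, rfl⟩
        obtain ⟨p', hp', -, hp1'⟩ := hv ⟨v, rfl⟩
        rw [hp, hp'] at huv
        cases huv
      · rw [hi, hj]
    rw [hcast u (C v) hc] at huv
    exact congrArg Subtype.val (hFi _ huv)
  · intro u v huv
    have hne := hC u v huv
    simp only
    rcases hF (C u) with ⟨i, hi, hu⟩ | ⟨hi, hu⟩ <;> rcases hF (C v) with ⟨j, hj, hv⟩ | ⟨hj, hv⟩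
    · obtain ⟨p, hp, -, hp1⟩ := hu ⟨u, rfl⟩
      obtain ⟨p', hp', -, hp1'⟩ := hv ⟨v, rfl⟩
      rw [hp, hp']
      show p.1 ≠ p'.1
      rw [hp1, hp1']
      rintro rfl
      exact hne (hi.trans hj.symm)
    · obtain ⟨p, hp, hpt, -⟩ := hu ⟨u, rfl⟩
      obtain ⟨k, hk, hkt⟩ := hv ⟨v, rfl⟩
      rw [hp, hk]
      show p ∈ (q k).1
      rw [hkt]; exact hpt
    · obtain ⟨k, hk, hkt⟩ := hu ⟨u, rfl⟩
      obtain ⟨p, hp, hpt, -⟩ := hv ⟨v, rfl⟩
      rw [hp, hk]
      show p ∈ (q k).1
      rw [hkt]; exact hpt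
    · exact absurd (hi.trans hj.symm) hne

/-- a maximal blue pattern -/
theorem exists_pattern (C : Fin n → Fin (r + 1)) (hC : ∀ u v, H.Adj u v → C u ≠ C v)
    (hr : ¬ H.Colorable r) :
    ∃ (K : ℕ) (q : Fin K → Ty d C), ¬ Cont H (Bl (fun k => (q k).1)) ∧
      ∀ t : Ty d C, Cont H (Bl (fun k => ((Fin.snoc q t : Fin (K + 1) → Ty d C) k).1)) := by
  classical
  let All : ℕ → Prop := fun K => ∀ q : Fin K → Ty d C, Cont H (Bl (fun k => (q k).1))
  have hex : ∃ K, All K := by
    refine ⟨Fintype.card (Ty d C) * (Finset.univ.filter (fun v => C v = Fin.last r)).card + 1, ?_⟩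
    intro q
    have : Nonempty (Ty d C) := ⟨q 0⟩
    obtain ⟨t, ht⟩ := Fintype.exists_le_card_fiber_of_mul_le_card (f := q)
      (n := (Finset.univ.filter (fun v => C v = Fin.last r)).card) (by
        rw [Fintype.card_fin]; omega)
    exact cont_of_fiber H C hC q t ht
  have h0 : ¬ All 0 := by
    intro h
    obtain ⟨f, hf, hadj⟩ := h (fun k => k.elim0)
    apply hr
    refine ⟨SimpleGraph.Coloring.mk (fun v => match f v with
      | .inl p => p.1
      | .inr k => k.elim0) ?_⟩
    intro u v huv
    have := hadj u v huv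
    rcases hu : f u with p | k
    · rcases hv : f v with p' | k
      · rw [hu, hv] at this
        exact this
      · exact k.elim0
    · exact k.elim0
  have hne : Nat.find hex ≠ 0 := fun h => h0 (h ▸ Nat.find_spec hex)
  obtain ⟨K, hK⟩ := Nat.exists_eq_succ_of_ne_zero hne
  have h1 : ¬ All K := Nat.find_min hex (by omega)
  have h2 : All (K + 1) := by
    have := Nat.find_spec hex
    rwa [hK] at this
  simp only [All, not_forall] at h1
  obtain ⟨q, hq⟩ := h1
  exact ⟨K, q, hq, fun t => h2 _⟩

theorem monoFree_comp {V W : Type} (G : SimpleGraph V) (G' : SimpleGraph W) (j : V → W)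
    (hj : Function.Injective j) (hadj : ∀ u v, G.Adj u v → G'.Adj (j u) (j v)) (c : W → W → Bool)
    (hc : MonoFree H G' c) : MonoFree H G (fun a b => c (j a) (j b)) :=
  ⟨fun _ _ => hc.1 _ _, fun β f hf h => hc.2 β (fun v => j (f v)) (hj.comp hf)
    (fun u v huv => ⟨hadj _ _ (h u v huv).1, (h u v huv).2⟩)⟩

theorem monoFree_xor {V : Type} (G : SimpleGraph V) (c : V → V → Bool)
    (hc : MonoFree H G c) (s : Bool) : MonoFree H G (fun a b => xor s (c a b)) := by
  refine ⟨fun a b => by simp only [hc.1 a b], fun β f hf h => hc.2 (xor s β) f hf (fun u v huv => ?_)⟩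
  obtain ⟨h1, h2⟩ := h u v huv
  have h3 : xor s (c (f u) (f v)) = β := h2
  refine ⟨h1, ?_⟩
  rw [← h3]
  cases s <;> cases c (f u) (f v) <;> rfl

theorem monoFree_pattern (hconn : H.Connected) (hn : 1 ≤ n) {K : ℕ}
    (hne : ∃ u v, H.Adj u v)
    (q : Fin K → Finset (Fin r × Fin (n - 1))) (hq : ¬ Cont H (Bl q)) (φ : _ → _ → Bool)
    (hφ : ∀ x y, φ x y = true ↔ Bl q x y) : MonoFree H (PP q) φ := by
  refine ⟨fun a b => ?_, fun β f hf h => ?_⟩
  · have h1 := hφ a b
    have h2 := hφ b a
    have h3 : Bl q a b ↔ Bl q b a := ⟨Bl_symm q _ _, Bl_symm q _ _⟩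
    rw [Bool.eq_iff_iff, h1, h2, h3]
  cases β with
  | true => exact hq ⟨f, hf, fun u v huv => (hφ _ _).1 (h u v huv).2⟩
  | false =>
    have key : ∀ u v, H.Adj u v → ∃ p p', f u = .inl p ∧ f v = .inl p' ∧ p.1 = p'.1 := by
      intro u v huv
      obtain ⟨h1, h2⟩ := h u v huv
      have h3 : ¬ Bl q (f u) (f v) := by
        rw [← hφ, h2]; simp
      rcases hu : f u with p | k <;> rcases hv : f v with p' | k'
      · rw [hu, hv] at h3
        refine ⟨p, p', rfl, rfl, ?_⟩
        by_contra h4
        exact h3 h4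
      · rw [hu, hv] at h1 h3
        exact absurd h1 h3
      · rw [hu, hv] at h1 h3
        exact absurd h1 h3
      · rw [hu, hv] at h1
        exact absurd h1 (fun h => h)
    obtain ⟨u₀, v₀, huv₀⟩ := hne
    obtain ⟨p₀, -, hp₀, -, -⟩ := key u₀ v₀ huv₀
    have hall : ∀ v, ∃ p, f v = .inl p ∧ p.1 = p₀.1 := by
      intro v
      obtain ⟨w⟩ := hconn.preconnected u₀ v
      have : ∀ a b, H.Walk a b → (∃ p, f a = .inl p ∧ p.1 = p₀.1) → ∃ p, f b = .inl p ∧ p.1 = p₀.1 := by
        intro a b w
        induction w with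
        | nil => exact fun h => h
        | cons hadj _ ih =>
          rintro ⟨p, hp, hp1⟩
          obtain ⟨p', p'', h1, h2, h3⟩ := key _ _ hadj
          apply ih
          refine ⟨p'', h2, ?_⟩
          rw [h1] at hp
          rw [← h3, Sum.inl_injective hp, hp1]
      exact this _ _ w ⟨p₀, hp₀, rfl⟩
    choose g hg hg1 using hall
    have hinj : Function.Injective (fun v => (g v).2) := by
      intro a b hab
      apply hf
      rw [hg, hg]
      congr 1
      exact Prod.ext ((hg1 a).trans (hg1 b).symm) hab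
    have := Fintype.card_le_of_injective _ hinj
    rw [Fintype.card_fin, Fintype.card_fin] at this
    omega

/-- the map of the pattern with one more vertex into the graph with the new vertex -/
def jmap {X V' : Type} {K : ℕ} (ι : X ⊕ Fin K → V') : X ⊕ Fin (K + 1) → Option V'
  | .inl p => some (ι (.inl p))
  | .inr k => Fin.lastCases (motive := fun _ => Option V') none (fun k => some (ι (.inr k))) k

theorem jmap_last {X V' : Type} {K : ℕ} (ι : X ⊕ Fin K → V') : jmap ι (.inr (Fin.last K)) = none := by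
  simp [jmap]

theorem jmap_cast {X V' : Type} {K : ℕ} (ι : X ⊕ Fin K → V') (k : Fin K) :
    jmap ι (.inr k.castSucc) = some (ι (.inr k)) := by
  simp [jmap]

theorem jmap_inj {X V' : Type} {K : ℕ} (ι : X ⊕ Fin K → V') (hι : Function.Injective ι) :
    Function.Injective (jmap ι) := by
  rintro (p | k) (p' | k') h
  · have := hι (Option.some_injective _ h)
    rw [Sum.inl_injective this]
  · induction k' using Fin.lastCases with
    | last => rw [jmap_last] at h; cases h
    | cast k' => rw [jmap_cast] at h; cases hι (Option.some_injective _ h)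
  · induction k using Fin.lastCases with
    | last => rw [jmap_last] at h; cases h
    | cast k => rw [jmap_cast] at h; cases hι (Option.some_injective _ h)
  · induction k using Fin.lastCases with
    | last =>
      induction k' using Fin.lastCases with
      | last => rfl
      | cast k' => rw [jmap_cast, jmap_last] at h; cases h
    | cast k =>
      induction k' using Fin.lastCases with
      | last => rw [jmap_cast, jmap_last] at h; cases h
      | cast k' =>
        rw [jmap_cast, jmap_cast] at h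
        rw [Sum.inr_injective (hι (Option.some_injective _ h))]

theorem card_small (M m : ℕ) (h : m ≤ M) :
    (Finset.univ.filter (fun a : Fin M => a.val < m)).card = m := by
  have := Finset.card_bij (s := Finset.univ.filter (fun a : Fin M => a.val < m)) (t := Finset.range m)
    (fun a _ => a.val) (fun a ha => by simpa using ha) (fun a _ b _ hab => Fin.ext hab)
    (fun b hb => ⟨⟨b, by simp at hb; omega⟩, by simpa using hb, rfl⟩)
  rw [this, Finset.card_range]

end

theorem bound {n r d : ℕ} (H : SimpleGraph (Fin n)) (hconn : H.Connected) (hd : 2 ≤ d)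
    (hdeg : ∀ v, d ≤ (H.neighborSet v).ncard) (x₀ : Fin n) (hx : (H.neighborSet x₀).ncard = d)
    (hbel : ∀ {V : Type} [Fintype V] (P : SimpleGraph V) (φ : V → V → Bool), MonoFree H P φ →
      ∃ (V' : Type) (_ : Fintype V') (G : SimpleGraph V') (ι : V → V'), Function.Injective ι ∧
        (∀ u v, G.Adj (ι u) (ι v) ↔ P.Adj u v) ∧ (∃ c, MonoFree H G c) ∧
        ∀ c, MonoFree H G c → ∀ x a b, P.Adj x a → P.Adj x b →
          (c (ι x) (ι a) = c (ι x) (ι b) ↔ φ x a = φ x b))
    (C : Fin n → Fin (r + 1)) (hC : ∀ u v, H.Adj u v → C u ≠ C v) (hr : ¬ H.Colorable r) :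
    ∃ (V : Type) (_ : Fintype V) (G : SimpleGraph V) (N : Finset V),
      N.card ≤ r * (d - 1) + (n - (Finset.univ.filter (fun v => C v = Fin.last r)).card) ∧
      (∃ c, MonoFree H G c) ∧ ∀ c, ¬ MonoFree H (addV G N) c := by
  classical
  -- preliminaries
  obtain ⟨u₀, hu₀⟩ : (H.neighborSet x₀).Nonempty := by
    rw [← Set.ncard_pos]; omega
  have hu₀' : H.Adj x₀ u₀ := hu₀
  have hr1 : 1 ≤ r := by
    rcases Nat.eq_zero_or_pos r with h | h
    · subst h
      exact absurd (Fin.ext (by have h1 := (C x₀).2; have h2 := (C u₀).2; omega)) (hC _ _ hu₀')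
    · exact h
  have hgd : ∀ i, d + gc C i ≤ n := deg_class H C hC hr hdeg
  have hg1 : ∀ i, 1 ≤ gc C i := by
    intro i
    obtain ⟨v, hv⟩ := color_used H C hC hr i.castSucc
    exact Finset.card_pos.2 ⟨v, by simpa using hv⟩
  have hn : 3 ≤ n := by
    have h1 := hgd ⟨0, hr1⟩
    have h2 := hg1 ⟨0, hr1⟩
    omega
  obtain ⟨K, q, hq, hall⟩ := exists_pattern (d := d) H C hC hr
  obtain ⟨Q, hQ⟩ : ∃ Q : Fin K → Finset (Fin r × Fin (n - 1)), Q = fun k => (q k).1 := ⟨_, rfl⟩
  rw [← hQ] at hq
  have hMF : MonoFree H (PP Q) (fun x y => decide (Bl Q x y)) :=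
    monoFree_pattern H hconn (by omega) ⟨x₀, u₀, hu₀'⟩ Q hq _ (fun x y => by simp)
  obtain ⟨V', hV', G, ι, hι, hadj, hex, hforce⟩ := hbel (PP Q) _ hMF
  let S : Finset (Fin r × Fin (n - 1)) := Finset.univ.filter (fun p => p.2.val < d - 1 + gc C p.1)
  let N : Finset V' := S.image (fun p => ι (.inl p))
  refine ⟨V', hV', G, N, ?_, hex, ?_⟩
  · -- the size of `N`
    have h1 : N.card ≤ S.card := Finset.card_image_le
    have h2 : S.card ≤ ∑ i : Fin r, (d - 1 + gc C i) := by
      rw [Finset.card_eq_sum_card_fiberwise (f := fun p => p.1) (t := Finset.univ) (fun _ _ => by simp)]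
      apply Finset.sum_le_sum
      intro i _
      calc (S.filter (fun p => p.1 = i)).card ≤ (Finset.range (d - 1 + gc C i)).card := by
            apply Finset.card_le_card_of_injOn (fun p => p.2.val)
            · intro p hp
              simp only [S, Finset.coe_filter, Finset.mem_filter, Finset.mem_univ, true_and,
                Set.mem_ofPred_eq] at hp
              simp only [Finset.coe_range, Set.mem_Iio]
              rw [← hp.2]; exact hp.1
            · intro p hp p' hp' hpp
              simp only [Finset.coe_filter, Set.mem_ofPred_eq] at hp hp'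
              exact Prod.ext (hp.2.trans hp'.2.symm) (Fin.ext hpp)
        _ = d - 1 + gc C i := Finset.card_range _
    have h3 := sum_gc C
    rw [Finset.sum_add_distrib, Finset.sum_const, Finset.card_univ, Fintype.card_fin, smul_eq_mul] at h2
    omega
  intro c' hc'
  have hc : MonoFree H G (fun a b => c' (some a) (some b)) :=
    monoFree_comp H G (addV G N) some (Option.some_injective _) (fun _ _ h => h) c' hc'
  have hfor := hforce _ hc
  -- the comparison of the two colourings is constant
  obtain ⟨σ, hσ⟩ : ∃ σ : ((Fin r × Fin (n - 1)) ⊕ Fin K) → ((Fin r × Fin (n - 1)) ⊕ Fin K) → Bool,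
      ∀ x a, σ x a = xor (c' (some (ι x)) (some (ι a))) (decide (Bl Q x a)) := ⟨_, fun _ _ => rfl⟩
  have hA : ∀ x a b, (PP Q).Adj x a → (PP Q).Adj x b → σ x a = σ x b := by
    intro x a b ha hb
    have h : c' (some (ι x)) (some (ι a)) = c' (some (ι x)) (some (ι b)) ↔
        decide (Bl Q x a) = decide (Bl Q x b) := hfor x a b ha hb
    rw [hσ, hσ]
    revert h
    generalize c' (some (ι x)) (some (ι a)) = z1
    generalize c' (some (ι x)) (some (ι b)) = z2
    generalize decide (Bl Q x a) = z3
    generalize decide (Bl Q x b) = z4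
    revert z1 z2 z3 z4
    decide
  have hsym : ∀ x a, σ x a = σ a x := by
    intro x a
    have h : Bl Q x a ↔ Bl Q a x := ⟨Bl_symm Q _ _, Bl_symm Q _ _⟩
    rw [hσ, hσ, hc'.1 (some (ι x)) (some (ι a)), decide_eq_decide.2 h]
  obtain ⟨p0, p1, hp01⟩ : ∃ p0 p1 : Fin r × Fin (n - 1), p0 ≠ p1 :=
    ⟨(⟨0, hr1⟩, ⟨0, by omega⟩), (⟨0, hr1⟩, ⟨1, by omega⟩), by simp⟩
  obtain ⟨s0, hs0⟩ : ∃ s0, s0 = σ (.inl p0) (.inl p1) := ⟨_, rfl⟩
  have hB : ∀ p p' : Fin r × Fin (n - 1), p ≠ p' → σ (.inl p) (.inl p') = s0 := by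
    intro p p' hpp
    by_cases h : p = p0
    · subst h
      rw [hs0]
      exact hA _ _ _ hpp hp01
    · rw [hs0, hA (.inl p) (.inl p') (.inl p0) hpp h, hsym]
      exact hA _ _ _ (fun h' => h h'.symm) hp01
  have hB' : ∀ (p : Fin r × Fin (n - 1)) (k : Fin K), p ∈ Q k → σ (.inl p) (.inr k) = s0 := by
    intro p k hpk
    obtain ⟨p', hp'⟩ : ∃ p', p ≠ p' := by
      by_cases h : p = p0
      · exact ⟨p1, by rw [h]; exact hp01⟩
      · exact ⟨p0, h⟩
    rw [← hB p p' hp']
    exact hA _ _ _ hpk hp'
  have hD : ∀ x a, (PP Q).Adj x a → σ x a = s0 := by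
    rintro (p | k) (p' | k') h
    · exact hB _ _ h
    · exact hB' _ _ h
    · rw [hsym]; exact hB' _ _ h
    · exact absurd h (fun h => h)
  -- the normalised colouring
  obtain ⟨c'', hc''def⟩ : ∃ c'' : Option V' → Option V' → Bool, c'' = fun a b => xor s0 (c' a b) := ⟨_, rfl⟩
  have hc'' : MonoFree H (addV G N) c'' := by
    rw [hc''def]; exact monoFree_xor H _ _ hc' s0
  have hcφ : ∀ x a, (PP Q).Adj x a → c'' (some (ι x)) (some (ι a)) = decide (Bl Q x a) := by
    intro x a h
    have h1 := hD x a h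
    rw [hσ] at h1
    rw [hc''def]
    simp only [← h1]
    generalize c' (some (ι x)) (some (ι a)) = z1
    generalize decide (Bl Q x a) = z2
    revert z1 z2
    decide
  have hAdd : ∀ a b, (PP Q).Adj a b → (addV G N).Adj (some (ι a)) (some (ι b)) :=
    fun a b h => (hadj a b).2 h
  have hNmem : ∀ p : Fin r × Fin (n - 1), p.2.val < d - 1 + gc C p.1 → ι (.inl p) ∈ N := by
    intro p hp
    exact Finset.mem_image_of_mem (fun p => ι (.inl p)) (by simpa [S] using hp)
  -- few red edges
  have hred : ∀ i : Fin r, (Finset.univ.filter (fun a : Fin (n - 1) => a.val < d - 1 + gc C i ∧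
      c'' none (some (ι (.inl (i, a)))) = false)).card ≤ d - 1 := by
    intro i
    by_contra hcon
    push Not at hcon
    obtain ⟨g, hg, hgS⟩ := exists_map (A := {v : Fin n // v ≠ x₀}) (B := Fin (n - 1))
      (by simp) (Finset.univ.filter (fun v : {v : Fin n // v ≠ x₀} => H.Adj x₀ v.1))
      (Finset.univ.filter (fun a : Fin (n - 1) => a.val < d - 1 + gc C i ∧
        c'' none (some (ι (.inl (i, a)))) = false)) (by
        have h1 : (Finset.univ.filter (fun v : {v : Fin n // v ≠ x₀} => H.Adj x₀ v.1)).card ≤ d := by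
          rw [← hx, ← Finset.card_map (Function.Embedding.subtype _), ← Set.ncard_coe_finset]
          apply Set.ncard_le_ncard _ (Set.toFinite _)
          intro v hv
          simp only [Finset.coe_map, Finset.coe_filter, Finset.mem_univ, true_and, Set.mem_image,
            Set.mem_ofPred_eq] at hv
          obtain ⟨w, hw, rfl⟩ := hv
          exact hw
        omega)
    let f : Fin n → Option V' := fun v => if h : v = x₀ then none else some (ι (.inl (i, g ⟨v, h⟩)))
    have hf0 : f x₀ = none := by simp [f]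
    have hf1 : ∀ v (h : v ≠ x₀), f v = some (ι (.inl (i, g ⟨v, h⟩))) := fun v h => by simp [f, h]
    apply hc''.2 false f
    · intro u v huv
      by_cases hu : u = x₀ <;> by_cases hv : v = x₀
      · rw [hu, hv]
      · rw [hu, hf0, hf1 v hv] at huv; cases huv
      · rw [hv, hf0, hf1 u hu] at huv; cases huv
      · rw [hf1 u hu, hf1 v hv] at huv
        have h1 := hι (Option.some_injective _ huv)
        have h2 := Sum.inl_injective h1
        have h3 := hg (Prod.ext_iff.1 h2).2
        exact congrArg Subtype.val h3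
    · have hx0 : ∀ v (hv : v ≠ x₀), H.Adj x₀ v → (addV G N).Adj none (f v) ∧ c'' none (f v) = false := by
        intro v hv huv
        have h1 := hgS ⟨v, hv⟩ (by simpa using huv)
        simp only [Finset.mem_filter, Finset.mem_univ, true_and] at h1
        rw [hf1 v hv]
        exact ⟨hNmem _ h1.1, h1.2⟩
      intro u v huv
      by_cases hu : u = x₀
      · subst hu
        have hv : v ≠ u := huv.ne'
        rw [hf0]
        exact hx0 v hv huv
      · by_cases hv : v = x₀
        · subst hv
          rw [hf0]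
          obtain ⟨h1, h2⟩ := hx0 u hu huv.symm
          exact ⟨h1.symm, by rw [hc''.1]; exact h2⟩
        · rw [hf1 u hu, hf1 v hv]
          have hne : (i, g ⟨u, hu⟩) ≠ (i, g ⟨v, hv⟩) := by
            intro h
            have h3 := hg (Prod.ext_iff.1 h).2
            exact huv.ne (congrArg Subtype.val h3)
          refine ⟨hAdd _ _ hne, ?_⟩
          rw [hcφ (.inl (i, g ⟨u, hu⟩)) (.inl (i, g ⟨v, hv⟩)) hne]
          exact decide_eq_false (fun h => h rfl)
  -- the type of the new vertex
  let t : Ty d C := ⟨S.filter (fun p => c'' none (some (ι (.inl p))) = true), by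
    intro p hp
    simp only [S, Finset.mem_filter, Finset.mem_univ, true_and] at hp
    exact hp.1, by
    intro i
    have h1 := hred i
    have h2 := card_small (n - 1) (d - 1 + gc C i) (by have := hgd i; omega)
    have h3 := Finset.card_filter_add_card_filter_not
      (s := Finset.univ.filter (fun a : Fin (n - 1) => a.val < d - 1 + gc C i))
      (fun a => c'' none (some (ι (.inl (i, a)))) = false)
    rw [Finset.filter_filter, h2] at h3
    have h4 : ((Finset.univ.filter (fun a : Fin (n - 1) => a.val < d - 1 + gc C i)).filter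
        (fun a => ¬ c'' none (some (ι (.inl (i, a)))) = false)).card ≤
        ((S.filter (fun p => c'' none (some (ι (.inl p))) = true)).filter (fun p => p.1 = i)).card := by
      apply Finset.card_le_card_of_injOn (fun a => (i, a))
      · intro a ha
        simp only [Finset.coe_filter, Finset.mem_filter, Finset.mem_univ, true_and,
          Set.mem_ofPred_eq, Bool.not_eq_false] at ha
        simp only [S, Finset.coe_filter, Finset.mem_filter, Finset.mem_univ, true_and,
          Set.mem_ofPred_eq, and_true]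
        exact ha
      · intro a _ b _ hab
        exact (Prod.ext_iff.1 hab).2
    omega⟩
  obtain ⟨f, hf, hfadj⟩ := hall t
  have hJ := jmap_inj ι hι
  have hsnoc1 : (Fin.snoc q t : Fin (K + 1) → Ty d C) (Fin.last K) = t := by simp
  have hsnoc2 : ∀ k : Fin K, (Fin.snoc q t : Fin (K + 1) → Ty d C) k.castSucc = q k := by simp
  have hedge1 : ∀ (p : Fin r × Fin (n - 1)) (k : Fin (K + 1)),
      p ∈ ((Fin.snoc q t : Fin (K + 1) → Ty d C) k).1 →
      (addV G N).Adj (some (ι (.inl p))) (jmap ι (.inr k)) ∧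
        c'' (some (ι (.inl p))) (jmap ι (.inr k)) = true := by
    intro p k hp
    induction k using Fin.lastCases with
    | last =>
      rw [hsnoc1] at hp
      simp only [t, S, Finset.mem_filter, Finset.mem_univ, true_and] at hp
      rw [jmap_last]
      exact ⟨hNmem p hp.1, by rw [hc''.1]; exact hp.2⟩
    | cast k =>
      rw [hsnoc2] at hp
      have hp' : p ∈ Q k := by rw [hQ]; exact hp
      rw [jmap_cast]
      refine ⟨hAdd (.inl p) (.inr k) hp', ?_⟩
      rw [hcφ (.inl p) (.inr k) hp']
      exact decide_eq_true hp'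
  have hedge : ∀ x y, Bl (fun k => ((Fin.snoc q t : Fin (K + 1) → Ty d C) k).1) x y →
      (addV G N).Adj (jmap ι x) (jmap ι y) ∧ c'' (jmap ι x) (jmap ι y) = true := by
    rintro (p | k) (p' | k') h
    · have hne : p ≠ p' := fun h' => h (by rw [h'])
      refine ⟨hAdd (.inl p) (.inl p') hne, ?_⟩
      show c'' (some (ι (.inl p))) (some (ι (.inl p'))) = true
      rw [hcφ (.inl p) (.inl p') hne]
      exact decide_eq_true h
    · exact hedge1 p k' h
    · obtain ⟨h1, h2⟩ := hedge1 p' k h
      exact ⟨h1.symm, by rw [hc''.1]; exact h2⟩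
    · exact absurd h (fun h => h)
  exact hc''.2 true (fun v => jmap ι (f v)) (hJ.comp hf) (fun u v huv => hedge _ _ (hfadj u v huv))

end Pool.Agent.Helper54.BEL
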